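import Pool.Agent.Helper154_Diamond.Measure

/-!
The diamond principle and the weak diamond principle hold at every strongly inaccessible cardinal
above an `ω₁`-strongly compact cardinal, at every weakly compact cardinal `c` such that `V_c` has an
`ω₁`-strongly compact cardinal, and at every strongly inaccessible cardinal `c` such that all
regular cardinals of a final segment of `c`, and `c`, are measured or have simultaneous reflection.
-/

open Ordinal Cardinal Set Order

universe u

namespace Pool.Agent.Results.MP_95ca41_lc.AboveStronglyCompact

open Pool.Agent.Helper154_Diamond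

/-- Let `c` be strongly inaccessible and `κ < c`. Suppose that `κ` is `ω₁`-strongly compact, or
that `c` is weakly compact and `κ` is `ω₁`-strongly compact in `V_c`, or just that `κ` is infinite
and every regular cardinal `m` with `κ < m ≤ c` is countably measured or has simultaneous
reflection at limit ordinals above `κ`. Then the diamond principle holds at `c`, with guessing at
stationarily many ordinals above `κ` of cofinality at most `κ`; so do the diamond principle and the
weak diamond principle at `c`. -/
theorem result (c κ : Cardinal.{u}) (hc : c.IsInaccessible) (hκ : κ < c)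
    (h : OmegaOneStronglyCompact κ ∨ (WeaklyCompact c ∧ OmegaOneStronglyCompactBelow κ c) ∨
      (ℵ₀ ≤ κ ∧ ∀ m : Cardinal.{u}, m.IsRegular → κ < m → m ≤ c →
        CountablyMeasured m ∨ ReflectsOn (LimitAbove κ) m.ord)) :
    DiamondOn (CofLe κ) c.ord ∧ Diamond c.ord ∧ WeakDiamond c.ord := by
  have h1 : ℵ₀ ≤ κ ∧ ∀ m : Cardinal.{u}, m.IsRegular → κ < m → m ≤ c →
      CountablyMeasured m ∨ ReflectsOn (LimitAbove κ) m.ord := by
    rcases h with h | h | h
    · exact ⟨h.1.le, fun m hm hκm _ =>
        Or.inl (countablyMeasured_of_extension hm hκm.le trivial h.2)⟩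
    · refine ⟨h.2.1.le, fun m hm hκm hmc => Or.inl ?_⟩
      rcases hmc.lt_or_eq with h2 | rfl
      · exact countablyMeasured_of_extension (P := fun z => z < c) hm hκm.le h2 h.2.2
      · exact h.1.countablyMeasured
    · exact h
  have h2 : ∀ m : Cardinal.{u}, m.IsRegular → κ < m → m ≤ c →
      ReflectsOn (LimitAbove κ) m.ord := by
    intro m hm hκm hmc
    rcases h1.2 m hm hκm hmc with h3 | h3
    · exact h3.reflectsOn hm (h1.1.trans_lt hκm) hκm
    · exact h3
  have h3 : DiamondOn (CofLe κ) c.ord :=
    diamond_of_reflection hc (cofLe_subset κ)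
      (reflect_descend h1.1 h2 c hκ le_rfl c.ord hc.isRegular.cof_ord)
  exact ⟨h3, h3.diamond, h3.diamond.weakDiamond⟩

end Pool.Agent.Results.MP_95ca41_lc.AboveStronglyCompact
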