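import Pool.Agent.Helper154_Diamond.Reflect

/-!
Simultaneous reflection, at singular ordinals, of stationary sets of ordinals of countable
cofinality implies the diamond principle, and hence the weak diamond principle, at a strongly
inaccessible cardinal.
-/

open Ordinal Cardinal Set Order

universe u

namespace Pool.Agent.Results.MP_95ca41_lc.ReflectionAtSingulars

open Pool.Agent.Helper154_Diamond

/-- Let `c` be strongly inaccessible and let `B` be a class of singular limit ordinals. Suppose
that for every decreasing sequence of length `c` of stationary subsets of `c` consisting of
ordinals of countable cofinality there is `α < c` in `B` such that the first `α` members of the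
sequence are all stationary in `α`. Then the diamond principle holds at `c`, with guessing at
stationarily many elements of `B`; so do the diamond principle and the weak diamond
principle at `c`. -/
theorem result (c : Cardinal.{u}) (hc : c.IsInaccessible) (B : Set Ordinal.{u})
    (hB : B ⊆ SingularOrd) (hR : ReflectsOn B c.ord) :
    DiamondOn B c.ord ∧ Diamond c.ord ∧ WeakDiamond c.ord :=
  ⟨diamond_of_reflection hc hB hR, (diamond_of_reflection hc hB hR).diamond,
    (diamond_of_reflection hc hB hR).diamond.weakDiamond⟩

end Pool.Agent.Results.MP_95ca41_lc.ReflectionAtSingulars
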